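import Pool.Agent.D0H61.CC.Ch

/-!
Module ONE of the chain project (for helper61).
-/

set_option autoImplicit false

open Filter Topology MeasureTheory Finset

namespace Pool.Agent.D0H65.CC

open Pool.Agent.D0H61.CC

/-- The measure of a limsup inside a set of finite measure. -/
theorem limsup_meas (T : ℕ → Set ℝ) (hT : ∀ n, MeasurableSet (T n)) (I : Set ℝ) (hI : volume I ≠ ⊤)
    (hTI : ∀ n, T n ⊆ I) (m : ENNReal) (hm : ∃ᶠ n in atTop, m ≤ volume (T n)) :
    m ≤ volume {x | ∃ᶠ n in atTop, x ∈ T n} := by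
  have e : {x | ∃ᶠ n in atTop, x ∈ T n} = ⋂ k : ℕ, ⋃ n : ℕ, ⋃ (_ : k ≤ n), T n := by
    ext x
    simp only [Set.mem_ofPred_eq, frequently_atTop, Set.mem_iInter, Set.mem_iUnion]
    refine forall_congr' fun k => ?_
    constructor
    · rintro ⟨n, h1, h2⟩; exact ⟨n, h1, h2⟩
    · rintro ⟨n, h1, h2⟩; exact ⟨n, h1, h2⟩
  rw [e]
  have hanti : Antitone fun k : ℕ => ⋃ n : ℕ, ⋃ (_ : k ≤ n), T n := by
    intro k l hkl x hx
    simp only [Set.mem_iUnion] at hx ⊢
    obtain ⟨n, h1, h2⟩ := hx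
    exact ⟨n, hkl.trans h1, h2⟩
  have hmeas : ∀ k : ℕ, NullMeasurableSet (⋃ n : ℕ, ⋃ (_ : k ≤ n), T n) volume := fun k =>
    (MeasurableSet.iUnion fun n => MeasurableSet.iUnion fun _ => hT n).nullMeasurableSet
  have hsub : ∀ k : ℕ, (⋃ n : ℕ, ⋃ (_ : k ≤ n), T n) ⊆ I := fun k =>
    Set.iUnion_subset fun n => Set.iUnion_subset fun _ => hTI n
  have hfin : ∃ k : ℕ, volume (⋃ n : ℕ, ⋃ (_ : k ≤ n), T n) ≠ ⊤ :=
    ⟨0, ((measure_mono (hsub 0)).trans_lt (lt_top_iff_ne_top.2 hI)).ne⟩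
  have ht := tendsto_measure_iInter_atTop (μ := volume) hmeas hanti hfin
  refine ge_of_tendsto' ht fun k => ?_
  obtain ⟨n, h1, h2⟩ := frequently_atTop.1 hm k
  refine h2.trans (measure_mono ?_)
  intro x hx
  exact Set.mem_iUnion.2 ⟨n, Set.mem_iUnion.2 ⟨h1, hx⟩⟩

open Classical in
/-- The window of `A` at `N`. -/
noncomputable def win (A : Set ℕ) (η : ℝ) (N : ℕ) : Finset ℕ :=
  (Icc 1 (2 * N)).filter fun n : ℕ => n ∈ A ∧ N < n ∧ (n : ℝ) ≤ (1 + η) * N

/-- The set of ONE. -/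
def oneS (A : Set ℕ) (κ γ : ℝ) (a b : ℤ) (α : ℝ) : Set ℕ :=
  {n : ℕ | n ∈ A ∧ PP (⌊α * n⌋ + a) ∧ PP (⌊γ * α ^ κ * n⌋ + b)}

theorem PP_meas1 (a : ℤ) (n : ℕ) : MeasurableSet {α : ℝ | PP (⌊α * n⌋ + a)} := by
  have h2 : Measurable fun α : ℝ => ⌊α * n⌋ := (measurable_id.mul_const _).floor
  exact h2 (MeasurableSet.of_discrete (s := {z : ℤ | PP (z + a)}))

theorem PP_meas2 (κ γ : ℝ) (b : ℤ) (n : ℕ) : MeasurableSet {α : ℝ | PP (⌊γ * α ^ κ * n⌋ + b)} := by
  have h1 : Measurable fun α : ℝ => α ^ κ := measurable_id.pow_const κ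
  have h2 : Measurable fun α : ℝ => ⌊γ * α ^ κ * n⌋ := ((h1.const_mul γ).mul_const _).floor
  exact h2 (MeasurableSet.of_discrete (s := {z : ℤ | PP (z + b)}))

theorem oneS_meas (A : Set ℕ) (κ γ : ℝ) (a b : ℤ) (n : ℕ) :
    MeasurableSet {α : ℝ | n ∈ oneS A κ γ a b α} := by
  by_cases hn : n ∈ A
  · have e : {α : ℝ | n ∈ oneS A κ γ a b α} =
        {α : ℝ | PP (⌊α * n⌋ + a)} ∩ {α : ℝ | PP (⌊γ * α ^ κ * n⌋ + b)} := by
      ext α
      exact ⟨fun h => h.2, fun h => ⟨hn, h⟩⟩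
    rw [e]
    exact (PP_meas1 a n).inter (PP_meas2 κ γ b n)
  · have e : {α : ℝ | n ∈ oneS A κ γ a b α} = ∅ := by
      ext α
      exact ⟨fun h => absurd h.1 hn, fun h => absurd h (Set.notMem_empty _)⟩
    rw [e]
    exact MeasurableSet.empty

theorem Mc_meas (κ γ : ℝ) (a b : ℤ) (G : Finset ℕ) : Measurable fun α : ℝ => (Mc κ γ a b G α : ℝ) := by
  classical
  have e : (fun α : ℝ => (Mc κ γ a b G α : ℝ)) = fun α => ∑ n ∈ G,
      ({α : ℝ | PP (⌊α * n⌋ + a)} ∩ {α : ℝ | PP (⌊γ * α ^ κ * n⌋ + b)}).indicator (fun _ => (1:ℝ)) α := by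
    funext α
    unfold Mc
    rw [Finset.card_filter]
    push_cast
    refine Finset.sum_congr rfl fun n _ => ?_
    by_cases h : PP (⌊α * n⌋ + a) ∧ PP (⌊γ * α ^ κ * n⌋ + b)
    · rw [Set.indicator_of_mem (show α ∈ {α : ℝ | PP (⌊α * n⌋ + a)} ∩ {α : ℝ | PP (⌊γ * α ^ κ * n⌋ + b)} from h),
        if_pos h]
    · rw [Set.indicator_of_notMem
        (show α ∉ {α : ℝ | PP (⌊α * n⌋ + a)} ∩ {α : ℝ | PP (⌊γ * α ^ κ * n⌋ + b)} from h), if_neg h]
  rw [e]
  exact Finset.measurable_sum _ fun n _ =>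
    Measurable.indicator measurable_const ((PP_meas1 a n).inter (PP_meas2 κ γ b n))

/-- Module ONE. -/
theorem t_ONE : S_CORE → S_DEN → S_WIN → S_ONE := by
  intro hCore hDen hWin C A hA κ γ a b hκ0 hκ1 hγ
  refine hDen {α | Big (C + 5) (oneS A κ γ a b α)} (big_meas (C + 5) _ (oneS_meas A κ γ a b)) ?_
  intro R hR
  obtain ⟨c, hc, η₀, hη₀, hη₀1, hcore⟩ := hCore κ γ a b R hκ0 hκ1 hγ hR
  refine ⟨c, hc, η₀, hη₀, ?_⟩
  intro α₀ η hα1 hα2 hη hηη
  have hev := hcore (C + 1) α₀ η hα1 hα2 hη hηη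
  have hw := hWin C A hA η hη (hηη.trans hη₀1)
  set I : Set ℝ := Set.Icc α₀ (α₀ * (1 + 3 * η)) with hIdef
  let T : ℕ → Set ℝ := fun N => {α : ℝ | α ∈ I ∧ (N : ℝ) ≤ (win A η N).card * Real.log N ^ (C + 1) ∧
    ((win A η N).card : ℝ) ≤ Mc κ γ a b (win A η N) α * Real.log N ^ 3}
  have hTm : ∀ N, MeasurableSet (T N) := by
    intro N
    have e : T N = I ∩ ({α : ℝ | (N : ℝ) ≤ (win A η N).card * Real.log N ^ (C + 1)} ∩
      {α : ℝ | ((win A η N).card : ℝ) ≤ Mc κ γ a b (win A η N) α * Real.log N ^ 3}) := rfl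
    rw [e]
    refine measurableSet_Icc.inter (MeasurableSet.inter ?_ ?_)
    · exact MeasurableSet.const _
    · exact measurableSet_le measurable_const ((Mc_meas κ γ a b _).mul_const _)
  have hfreq : ∃ᶠ N in atTop, ENNReal.ofReal (c * η) ≤ volume (T N) := by
    refine (hw.and_eventually hev).mono ?_
    rintro N ⟨h1, h2⟩
    have h3 := h2 (win A η N) (fun n hn => by
      classical
      have := (Finset.mem_filter.1 hn).2
      exact ⟨this.2.1, this.2.2⟩) h1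
    refine h3.trans (measure_mono ?_)
    rintro α ⟨h4, h5⟩
    exact ⟨h4, h1, h5⟩
  have hlim := limsup_meas T hTm I (by rw [hIdef, Real.volume_Icc]; exact ENNReal.ofReal_ne_top)
    (fun N α h => h.1) _ hfreq
  refine hlim.trans (measure_mono ?_)
  intro α hα
  refine ⟨?_, ?_⟩
  · change Big (C + 5) (oneS A κ γ a b α)
    unfold Big
    have htt : Tendsto (fun N : ℕ => 2 * N) atTop atTop :=
      tendsto_atTop_mono (fun N => by simp only [id]; omega) tendsto_id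
    refine htt.frequently ?_
    refine (Frequently.and_eventually hα (eventually_ge_atTop 8)).mono ?_
    rintro N ⟨⟨-, h1, h2⟩, hN⟩
    have hN' : (8:ℝ) ≤ N := by exact_mod_cast hN
    have hlog2 : (2:ℝ) ≤ Real.log N := by
      have h3 : Real.exp 2 ≤ 8 := by
        have h4 := Real.exp_one_lt_d9
        have h5 : Real.exp 2 = Real.exp 1 * Real.exp 1 := by rw [← Real.exp_add]; norm_num
        rw [h5]; nlinarith [Real.exp_pos 1]
      calc (2:ℝ) = Real.log (Real.exp 2) := (Real.log_exp 2).symm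
        _ ≤ Real.log N := Real.log_le_log (Real.exp_pos _) (h3.trans hN')
    have hlog3 : Real.log N ≤ Real.log ((2 * N : ℕ) : ℝ) := by
      refine Real.log_le_log (by linarith) ?_
      push_cast; linarith
    have hMc : (Mc κ γ a b (win A η N) α : ℝ) ≤ (upTo (oneS A κ γ a b α) (2 * N)).card := by
      classical
      exact_mod_cast Finset.card_le_card (by
        intro n hn
        unfold upTo
        rw [Finset.mem_filter] at hn ⊢
        have h3 := Finset.mem_filter.1 hn.1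
        exact ⟨h3.1, h3.2.1, hn.2⟩)
    have h4 : (N : ℝ) ≤ (upTo (oneS A κ γ a b α) (2 * N)).card * Real.log N ^ (C + 4) := by
      calc (N : ℝ) ≤ (win A η N).card * Real.log N ^ (C + 1) := h1
        _ ≤ (Mc κ γ a b (win A η N) α * Real.log N ^ 3) * Real.log N ^ (C + 1) :=
            mul_le_mul_of_nonneg_right h2 (by positivity)
        _ = Mc κ γ a b (win A η N) α * Real.log N ^ (C + 4) := by ring
        _ ≤ _ := mul_le_mul_of_nonneg_right hMc (by positivity)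
    have h5 : 2 * Real.log N ^ (C + 4) ≤ Real.log ((2 * N : ℕ) : ℝ) ^ (C + 5) := by
      calc 2 * Real.log N ^ (C + 4) ≤ Real.log N * Real.log N ^ (C + 4) :=
            mul_le_mul_of_nonneg_right hlog2 (by positivity)
        _ = Real.log N ^ (C + 5) := by ring
        _ ≤ _ := pow_le_pow_left₀ (by linarith) hlog3 _
    calc ((2 * N : ℕ) : ℝ) = 2 * (N : ℝ) := by push_cast; ring
      _ ≤ 2 * ((upTo (oneS A κ γ a b α) (2 * N)).card * Real.log N ^ (C + 4)) := by linarith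
      _ = (upTo (oneS A κ γ a b α) (2 * N)).card * (2 * Real.log N ^ (C + 4)) := by ring
      _ ≤ (upTo (oneS A κ γ a b α) (2 * N)).card * Real.log ((2 * N : ℕ) : ℝ) ^ (C + 5) :=
          mul_le_mul_of_nonneg_left h5 (by positivity)
  · obtain ⟨N, hN⟩ := Frequently.exists hα
    exact hN.1

end Pool.Agent.D0H65.CC
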